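import Pool.Agent.helper17.MLG.Spec

/-! Row mlg:GRR of MP_84f457_gt -/

set_option autoImplicit false

namespace Pool.Agent.MLG

open MeasureTheory Set Filter Topology Module
open scoped ENNReal ContDiff

section aux

variable {V : Type} [NormedAddCommGroup V] [InnerProductSpace ℝ V] [FiniteDimensional ℝ V] [MeasurableSpace V]
  [BorelSpace V] [Group V]

theorem GRR_sum (f : V → ℝ) :
    gr f = fun x => ∑ i, (fderiv ℝ f x (fr x (stdOrthonormalBasis ℝ V i))) • stdOrthonormalBasis ℝ V i := by
  funext x
  have h1 := (stdOrthonormalBasis ℝ V).sum_repr' (gr f x)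
  rw [← h1]
  refine Finset.sum_congr rfl fun i _ => ?_
  rw [real_inner_comm, inner_gr]

theorem GRR_ext (u w : V) (h : ∀ v, inner ℝ u v = inner ℝ w v) : u = w :=
  ext_inner_right ℝ h

end aux

theorem GRR (hFRA : FRA_stmt) : GRR_stmt := by
  intro V _ _ _ _ _ _ hV
  obtain ⟨hsm, -, hcomp, hpos, -, -, -⟩ := hFRA V hV
  refine ⟨?_, ?_, ?_, ?_, ?_, ?_, ?_, ?_⟩
  · intro f hf
    rw [GRR_sum f]
    refine ContDiff.sum fun i _ => ?_
    refine ContDiff.smul ?_ contDiff_const
    exact (hf.fderiv_right (m := ∞) (by simp)).clm_apply (hsm.clm_apply contDiff_const)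
  · intro f hf
    rw [GRR_sum f]
    refine continuous_finset_sum _ fun i _ => ?_
    refine Continuous.smul ?_ continuous_const
    exact (hf.continuous_fderiv (by simp)).clm_apply (hsm.continuous.clm_apply continuous_const)
  · intro f h hf hh x
    refine GRR_ext _ _ fun v => ?_
    have h1 : HasFDerivAt (fun y => f y * h y) (f x • fderiv ℝ h x + h x • fderiv ℝ f x) x :=
      (hf x).hasFDerivAt.mul (hh x).hasFDerivAt
    rw [inner_add_left, real_inner_smul_left, real_inner_smul_left, inner_gr, inner_gr, inner_gr, h1.fderiv]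
    rfl
  · intro f h hf hh x
    refine GRR_ext _ _ fun v => ?_
    have h1 : HasFDerivAt (fun y => f y + h y) (fderiv ℝ f x + fderiv ℝ h x) x :=
      (hf x).hasFDerivAt.add (hh x).hasFDerivAt
    rw [inner_add_left, inner_gr, inner_gr, inner_gr, h1.fderiv]
    rfl
  · intro f η hf hη x
    refine GRR_ext _ _ fun v => ?_
    rw [real_inner_smul_left, inner_gr, inner_gr]
    have h1 : HasFDerivAt (fun y => η (f y)) (deriv η (f x) • fderiv ℝ f x) x :=
      ((hη (f x)).hasDerivAt).comp_hasFDerivAt x (hf x).hasFDerivAt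
    rw [h1.fderiv]
    rfl
  · intro f x
    constructor
    · intro h
      have h1 : ∀ v, fderiv ℝ f x (fr x v) = 0 := by
        intro v
        rw [← inner_gr, h, inner_zero_left]
      have h2 : Function.Surjective (fr x) := by
        have h3 : IsUnit (LinearMap.det (fr x : V →ₗ[ℝ] V)) := isUnit_iff_ne_zero.mpr (hpos x).ne'
        have h4 : IsUnit (fr x : V →ₗ[ℝ] V) := (LinearMap.isUnit_iff_isUnit_det _).mpr h3
        exact ((Module.End.isUnit_iff _).mp h4).2
      ext w
      obtain ⟨v, rfl⟩ := h2 w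
      rw [h1]
      rfl
    · intro h
      refine GRR_ext _ _ fun v => ?_
      rw [inner_gr, h, inner_zero_left]
      rfl
  · intro f hf
    refine (hf.fderiv (𝕜 := ℝ)).mono ?_
    intro x hx
    rw [Function.mem_support] at hx ⊢
    intro h0
    apply hx
    unfold gr
    rw [h0]
    simp
  · intro f hf g x
    refine GRR_ext _ _ fun v => ?_
    rw [inner_gr, inner_gr, hcomp g x]
    have h1 : HasFDerivAt (fun y : V => f (g * y)) ((fderiv ℝ f (g * x)).comp (fderiv ℝ (fun y : V => g * y) x)) x :=
      (hf (g * x)).hasFDerivAt.comp x (((smooth_left hV g).differentiable (by simp) x).hasFDerivAt)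
    rw [h1.fderiv]
    rfl

end Pool.Agent.MLG
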