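import Pool.Agent.helper17.MLG.Spec

/-! Row mlg:MES of MP_84f457_gt -/

set_option autoImplicit false

namespace Pool.Agent.MLG

open MeasureTheory Set Filter Topology Module
open scoped ENNReal ContDiff

theorem MES_img {V : Type} [NormedAddCommGroup V] [InnerProductSpace ℝ V] [FiniteDimensional ℝ V]
    [MeasurableSpace V] [BorelSpace V] [Group V] (hV : IsLie V) (hpos : ∀ x : V, 0 < rho x)
    (hrho : ∀ g x : V, rho (g * x) * |(fderiv ℝ (fun y : V => g * y) x).det| = rho x) (g : V) (s : Set V)
    (hs : MeasurableSet s) : vol V ((fun x : V => g * x) '' s) = vol V s := by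
  have hT : IsTopologicalGroup V := top hV
  have hinj : Function.Injective (fun x : V => g * x) := mul_right_injective g
  have hm : MeasurableSet ((fun x : V => g * x) '' s) := by
    have h1 : (fun x : V => g * x) '' s = (Homeomorph.mulLeft g) '' s := rfl
    rw [h1]
    exact (Homeomorph.mulLeft g).measurableEmbedding.measurableSet_image.mpr hs
  unfold vol
  rw [withDensity_apply _ hm, withDensity_apply _ hs]
  rw [lintegral_image_eq_lintegral_abs_det_fderiv_mul volume hs
    (f' := fun x => fderiv ℝ (fun y : V => g * y) x)
    (fun x _ => (((smooth_left hV g).differentiable (by simp) x).hasFDerivAt).hasFDerivWithinAt)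
    hinj.injOn]
  refine lintegral_congr fun x => ?_
  rw [← ENNReal.ofReal_mul (abs_nonneg _), mul_comm, hrho]

theorem MES (hFRA : FRA_stmt) : MES_stmt := by
  intro V _ _ _ _ _ _ hV
  obtain ⟨-, -, -, -, hsm, hpos, hrho⟩ := hFRA V hV
  have hT : IsTopologicalGroup V := top hV
  have hmeas : Measurable (fun x : V => ENNReal.ofReal (rho x)) :=
    (hsm.continuous.measurable).ennreal_ofReal
  have hac1 : vol V ≪ volume := withDensity_absolutelyContinuous _ _
  have hac2 : (volume : Measure V) ≪ vol V := by
    unfold vol
    refine withDensity_absolutelyContinuous' hmeas.aemeasurable ?_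
    refine Filter.Eventually.of_forall fun x => ?_
    rw [ne_eq, ENNReal.ofReal_eq_zero, not_le]
    exact hpos x
  have hloc : IsLocallyFiniteMeasure (vol V) := by
    unfold vol
    exact IsLocallyFiniteMeasure.withDensity_ofReal hsm.continuous
  have hopen : (vol V).IsOpenPosMeasure := hac2.isOpenPosMeasure
  have hinv : (vol V).IsMulLeftInvariant := by
    constructor
    intro g
    ext s hs
    rw [Measure.map_apply (by fun_prop) hs]
    have h1 : (fun x : V => g * x) ⁻¹' s = (fun x : V => g⁻¹ * x) '' s := by
      ext x
      simp only [mem_preimage, mem_image]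
      constructor
      · intro h
        exact ⟨g * x, h, by simp⟩
      · rintro ⟨y, hy, rfl⟩
        simpa using hy
    rw [h1]
    exact MES_img hV hpos hrho g⁻¹ s hs
  exact ⟨{ }, hac1, hac2⟩

end Pool.Agent.MLG
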