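import Pool.Agent.helper17.MLG.Spec

/-! Row mlg:RAN of MP_84f457_gt -/

set_option autoImplicit false

namespace Pool.Agent.MLG

open MeasureTheory Set Filter Topology Module
open scoped ENNReal ContDiff

theorem RAN_mono (f : ℝ → ℝ) (hf : ∀ v, 0 < v → 0 ≤ f v)
    (hm : ∀ v s, 0 < s → s < v → f (v - s) + f (v + s) ≤ 2 * f v) : MonotoneOn f (Ioi 0) := by
  intro a ha b hb hab
  rw [mem_Ioi] at ha hb
  by_contra hcon
  push Not at hcon
  have hlt : a < b := by
    rcases hab.lt_or_eq with h | h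
    · exact h
    · rw [h] at hcon
      exact absurd hcon (lt_irrefl _)
  set d := b - a with hd
  have hd0 : 0 < d := by rw [hd]; linarith
  set c := f a - f b with hc
  have hc0 : 0 < c := by rw [hc]; linarith
  have hstep : ∀ k : ℕ, f (a + (k + 1) * d) - f (a + k * d) ≤ -c := by
    intro k
    induction k with
    | zero =>
      have h1 : a + ((0 : ℕ) + 1) * d = b := by rw [hd]; push_cast; ring
      have h2 : a + ((0 : ℕ) : ℝ) * d = a := by push_cast; ring
      rw [h1, h2, hc]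
      linarith
    | succ k ih =>
      have h0 : (0 : ℝ) ≤ k * d := by positivity
      have h1 := hm (a + (k + 1) * d) d hd0 (by nlinarith)
      have h2 : a + (k + 1) * d - d = a + k * d := by ring
      have h3 : a + (k + 1) * d + d = a + ((k + 1 : ℕ) + 1) * d := by push_cast; ring
      rw [h2, h3] at h1
      push_cast at h1 ih ⊢
      linarith
  have hlin : ∀ k : ℕ, f (a + k * d) ≤ f a - k * c := by
    intro k
    induction k with
    | zero =>
      have h2 : a + ((0 : ℕ) : ℝ) * d = a := by push_cast; ring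
      rw [h2]
      simp
    | succ k ih =>
      have h1 := hstep k
      push_cast at h1 ih ⊢
      linarith
  obtain ⟨k, hk⟩ := exists_nat_gt (f a / c)
  rw [div_lt_iff₀ hc0] at hk
  have h1 := hlin k
  have h2 := hf (a + k * d) (by positivity)
  linarith

theorem RAN_mid (f : ℝ → ℝ) (hm : ∀ v s, 0 < s → s < v → f (v - s) + f (v + s) ≤ 2 * f v) (u w : ℝ)
    (hu : 0 < u) (hw : 0 < w) : (f u + f w) / 2 ≤ f ((u + w) / 2) := by
  rcases lt_trichotomy u w with h | h | h
  · have h1 := hm ((u + w) / 2) ((w - u) / 2) (by linarith) (by linarith)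
    rw [show (u + w) / 2 - (w - u) / 2 = u by ring, show (u + w) / 2 + (w - u) / 2 = w by ring] at h1
    linarith
  · rw [h, show (w + w) / 2 = w by ring]
    linarith
  · have h1 := hm ((u + w) / 2) ((u - w) / 2) (by linarith) (by linarith)
    rw [show (u + w) / 2 - (u - w) / 2 = w by ring, show (u + w) / 2 + (u - w) / 2 = u by ring] at h1
    linarith

theorem RAN_dya (f : ℝ → ℝ) (hm : ∀ v s, 0 < s → s < v → f (v - s) + f (v + s) ≤ 2 * f v) (x y : ℝ)
    (hx : 0 < x) (hy : 0 < y) (k : ℕ) : ∀ j i : ℕ, j + i = 2 ^ k →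
      (j * f x + i * f y) / 2 ^ k ≤ f ((j * x + i * y) / 2 ^ k) := by
  induction k with
  | zero =>
    intro j i hji
    have : (j = 0 ∧ i = 1) ∨ (j = 1 ∧ i = 0) := by omega
    rcases this with ⟨rfl, rfl⟩ | ⟨rfl, rfl⟩ <;> simp
  | succ k ih =>
    intro j i hji
    rw [pow_succ] at hji
    obtain ⟨j1, j2, i1, i2, hj, hi, h1, h2⟩ : ∃ j1 j2 i1 i2 : ℕ, j = j1 + j2 ∧ i = i1 + i2 ∧
        j1 + i1 = 2 ^ k ∧ j2 + i2 = 2 ^ k := by
      refine ⟨j / 2, j - j / 2, 2 ^ k - j / 2, 2 ^ k - (j - j / 2), ?_, ?_, ?_, ?_⟩ <;> omega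
    have e1 := ih j1 i1 h1
    have e2 := ih j2 i2 h2
    have hp : (0 : ℝ) < 2 ^ k := by positivity
    have hpos : ∀ a b : ℕ, a + b = 2 ^ k → 0 < ((a : ℝ) * x + b * y) / 2 ^ k := by
      intro a b hab
      apply div_pos _ hp
      rcases Nat.eq_zero_or_pos a with h | h
      · have hb : 0 < b := by
          have : 0 < 2 ^ k := Nat.two_pow_pos k
          omega
        have h3 : (0 : ℝ) < b := by exact_mod_cast hb
        have h4 : (0 : ℝ) ≤ a := by positivity
        positivity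
      · have h3 : (0 : ℝ) < a := by exact_mod_cast h
        positivity
    have e3 := RAN_mid f hm _ _ (hpos j1 i1 h1) (hpos j2 i2 h2)
    have e4 : (((j1 : ℝ) * x + i1 * y) / 2 ^ k + ((j2 : ℝ) * x + i2 * y) / 2 ^ k) / 2 =
        ((j : ℝ) * x + i * y) / 2 ^ (k + 1) := by
      rw [hj, hi, pow_succ]
      push_cast
      field_simp
      ring
    have e5 : (((j1 : ℝ) * f x + i1 * f y) / 2 ^ k + ((j2 : ℝ) * f x + i2 * f y) / 2 ^ k) / 2 =
        ((j : ℝ) * f x + i * f y) / 2 ^ (k + 1) := by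
      rw [hj, hi, pow_succ]
      push_cast
      field_simp
      ring
    rw [e4] at e3
    rw [← e5]
    linarith

theorem RAN : RAN_stmt := by
  intro f hf hm
  have hmono := RAN_mono f hf hm
  refine ⟨?_, hmono⟩
  refine LinearOrder.concaveOn_of_lt (convex_Ioi 0) ?_
  intro x hx y hy hxy a b ha hb hab
  rw [mem_Ioi] at hx hy
  simp only [smul_eq_mul]
  have hfxy : f x ≤ f y := hmono hx hy hxy.le
  refine le_of_forall_pos_le_add ?_
  intro ε hε
  obtain ⟨k, hk⟩ := exists_pow_lt_of_lt_one (show (0 : ℝ) < ε / (f y - f x + 1) by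
    apply div_pos hε; linarith) (show (1 / 2 : ℝ) < 1 by norm_num)
  rw [lt_div_iff₀ (by linarith)] at hk
  have hP : (0 : ℝ) < 2 ^ k := by positivity
  have hPinv : ((1 / 2 : ℝ) ^ k) * 2 ^ k = 1 := by
    rw [← mul_pow]
    norm_num
  set j : ℕ := ⌈a * 2 ^ k⌉₊ with hj
  have hj1 : a * 2 ^ k ≤ j := Nat.le_ceil _
  have hj2 : (j : ℝ) < a * 2 ^ k + 1 := Nat.ceil_lt_add_one (by positivity)
  have hj3 : j ≤ 2 ^ k := by
    rw [hj, Nat.ceil_le]
    push_cast
    nlinarith
  have hd := RAN_dya f hm x y hx hy k j (2 ^ k - j) (by omega)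
  rw [Nat.cast_sub hj3] at hd
  push_cast at hd
  have hb' : b = 1 - a := by linarith
  have hj3' : (j : ℝ) ≤ 2 ^ k := by exact_mod_cast hj3
  have hpt : ((j : ℝ) * x + (2 ^ k - j) * y) / 2 ^ k ≤ a * x + b * y := by
    rw [div_le_iff₀ hP, hb']
    nlinarith
  have hpos : 0 < ((j : ℝ) * x + (2 ^ k - j) * y) / 2 ^ k := by
    apply div_pos _ hP
    have h1 : 0 < (j : ℝ) := lt_of_lt_of_le (by positivity) hj1
    have h2 : 0 ≤ (2 ^ k - (j : ℝ)) * y := mul_nonneg (by linarith) hy.le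
    nlinarith
  have h3 : f (((j : ℝ) * x + (2 ^ k - j) * y) / 2 ^ k) ≤ f (a * x + b * y) :=
    hmono hpos (show 0 < a * x + b * y by positivity) hpt
  have h4 : a * f x + b * f y - ε ≤ ((j : ℝ) * f x + (2 ^ k - j) * f y) / 2 ^ k := by
    rw [le_div_iff₀ hP, hb']
    have h5 : (1 / 2 : ℝ) ^ k * (f y - f x) ≤ ε := by
      have : 0 ≤ (1 / 2 : ℝ) ^ k := by positivity
      nlinarith
    have h6 : (f y - f x) ≤ ε * 2 ^ k := by
      calc f y - f x = ((1 / 2 : ℝ) ^ k * (f y - f x)) * 2 ^ k := by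
            rw [mul_comm ((1 / 2 : ℝ) ^ k), mul_assoc, hPinv, mul_one]
        _ ≤ ε * 2 ^ k := mul_le_mul_of_nonneg_right h5 hP.le
    nlinarith
  linarith

end Pool.Agent.MLG
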