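import Pool.Agent.helper17.MLG.Spec

/-! Row mlg:FRA of MP_84f457_gt -/

set_option autoImplicit false

namespace Pool.Agent.MLG

open MeasureTheory Set Filter Topology Module
open scoped ENNReal ContDiff

theorem FRA_det {V : Type} [NormedAddCommGroup V] [InnerProductSpace ℝ V] [FiniteDimensional ℝ V] :
    ContDiff ℝ ∞ (fun A : V →L[ℝ] V => A.det) := by
  classical
  set b := stdOrthonormalBasis ℝ V with hb
  have h1 : ∀ A : V →L[ℝ] V, A.det = ∑ σ : Equiv.Perm (Fin (finrank ℝ V)),
      (Equiv.Perm.sign σ : ℤ) * ∏ i, inner ℝ (b (σ i)) (A (b i)) := by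
    intro A
    have h2 : A.det = LinearMap.det (A : V →ₗ[ℝ] V) := rfl
    rw [h2, ← LinearMap.det_toMatrix b.toBasis, Matrix.det_apply']
    refine Finset.sum_congr rfl fun σ _ => ?_
    congr 1
    refine Finset.prod_congr rfl fun i _ => ?_
    rw [LinearMap.toMatrix_apply, OrthonormalBasis.coe_toBasis, OrthonormalBasis.coe_toBasis_repr_apply,
      OrthonormalBasis.repr_apply_apply]
    rfl
  simp only [h1]
  refine ContDiff.sum fun σ _ => ?_
  refine contDiff_const.mul ?_
  refine contDiff_prod fun i _ => ?_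
  exact contDiff_const.inner ℝ (contDiff_id.clm_apply contDiff_const)

theorem FRA : FRA_stmt := by
  intro V _ _ _ _ _ _ hV
  have hsm : ContDiff ℝ ∞ (fr : V → V →L[ℝ] V) := by
    have h1 : ContDiff ℝ ∞ (Function.uncurry (fun x y : V => x * y)) := hV.1
    exact ContDiff.fderiv h1 (contDiff_const (c := (1 : V))) (by simp)
  have hone : fr (1 : V) = ContinuousLinearMap.id ℝ V := by
    unfold fr
    simp only [one_mul]
    exact fderiv_id'
  have hdl : ∀ g x : V, DifferentiableAt ℝ (fun y : V => g * y) x := fun g x =>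
    (smooth_left hV g).differentiable (by simp) x
  have hcomp : ∀ g x : V, fr (g * x) = (fderiv ℝ (fun y : V => g * y) x).comp (fr x) := by
    intro g x
    unfold fr
    have h1 : (fun y : V => g * x * y) = (fun y : V => g * y) ∘ (fun y : V => x * y) := by
      funext y
      simp [mul_assoc]
    rw [h1, fderiv_comp 1 (hdl g (x * 1)) (hdl x 1)]
    simp only [mul_one]
  have hdetc : ∀ A B : V →L[ℝ] V, (A.comp B).det = A.det * B.det := by
    intro A B
    exact LinearMap.det_comp (A : V →ₗ[ℝ] V) (B : V →ₗ[ℝ] V)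
  have hdetid : (ContinuousLinearMap.id ℝ V).det = 1 := by
    exact LinearMap.det_id
  have hne : ∀ x : V, (fr x).det ≠ 0 := by
    intro x h0
    have h1 := hcomp x⁻¹ x
    rw [inv_mul_cancel, hone] at h1
    have h2 := hdetid
    rw [h1, hdetc, h0, mul_zero] at h2
    exact zero_ne_one h2
  have hdsm : ContDiff ℝ ∞ (fun x : V => (fr x).det) := FRA_det.comp hsm
  have hpos : ∀ x : V, 0 < (fr x).det := by
    intro x
    by_contra hcon
    push Not at hcon
    have h1 : (0 : ℝ) ∈ Set.range (fun x : V => (fr x).det) := by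
      refine mem_range_of_exists_le_of_exists_ge hdsm.continuous ⟨x, hcon⟩ ⟨1, ?_⟩
      show (0 : ℝ) ≤ (fr (1 : V)).det
      rw [hone, hdetid]
      exact zero_le_one
    obtain ⟨y, hy⟩ := h1
    exact hne y hy
  have hrho : ∀ x : V, rho x = ((fr x).det)⁻¹ := by
    intro x
    unfold rho
    rw [abs_of_pos (hpos x)]
  refine ⟨hsm, hone, hcomp, hpos, ?_, ?_, ?_⟩
  · have h1 : (rho : V → ℝ) = fun x => ((fr x).det)⁻¹ := funext hrho
    rw [h1]
    exact hdsm.inv hne
  · intro x
    rw [hrho]
    exact inv_pos.mpr (hpos x)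
  · intro g x
    have h1 := hcomp g x
    have h2 : (fr (g * x)).det = (fderiv ℝ (fun y : V => g * y) x).det * (fr x).det := by
      rw [h1, hdetc]
    have h3 : (fderiv ℝ (fun y : V => g * y) x).det ≠ 0 := by
      intro h
      rw [h, zero_mul] at h2
      exact hne _ h2
    unfold rho
    rw [h2, abs_mul, mul_inv, mul_comm, ← mul_assoc, mul_inv_cancel₀ (abs_ne_zero.mpr h3), one_mul]

end Pool.Agent.MLG
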